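import Pool.Agent.MP_7a7825_ag.Examples

open LinearAlgebra.Projectivization

namespace Pool.Agent.Results.MP_7a7825_ag.Disconnected

open Pool.Agent.MP_7a7825_ag

lemma notPreconnected : ¬ IsPreconnected (Pent hA ∩ Gr) := by
  intro hpre
  have key := hpre {x : P5 | 0 < (coord 0 - coord 5) x.rep * lam0 x.rep}
    {x : P5 | 0 < (coord 5 - coord 0) x.rep * lam0 x.rep}
    (isOpen_mul_pos _ _) (isOpen_mul_pos _ _) ?_ ?_ ?_
  · obtain ⟨x, -, h1, h2⟩ := key
    have h1' : 0 < (coord 0 - coord 5) x.rep * lam0 x.rep := h1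
    have h2' : 0 < (coord 5 - coord 0) x.rep * lam0 x.rep := h2
    rw [LinearMap.sub_apply] at h1' h2'
    nlinarith
  · rintro x ⟨hP, hG⟩
    have hP' : ∀ i j : Fin 6, 0 ≤ x.rep i * x.rep j := fun i j => hP (Sum.inl i) (Sum.inl j)
    obtain ⟨v, hv, rfl, h1, hnn⟩ := exists_normalized hP'
    rw [mk_mem_Gr] at hG
    rw [mk_mem_Pent] at hP
    have hnn' := forms_nonneg (by rw [h1]; norm_num) hP
    have hh : 0 ≤ hA v := hnn' (Sum.inr 0)
    rw [hA_apply] at hh
    have hG' : v 0 * v 5 - v 1 * v 4 + v 3 * v 2 = 0 := hG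
    have e0 := hnn 0
    have e1 := hnn 1
    have e2 := hnn 2
    have e3 := hnn 3
    have e4 := hnn 4
    have e5 := hnn 5
    have hne : v 0 ≠ v 5 := by
      intro heq
      have h3 : v 1 * v 4 = v 0 ^ 2 + v 3 * v 2 := by rw [← heq] at hG'; linarith
      have h4 : v 1 + v 4 ≤ v 0 := by rw [← heq] at hh; linarith
      have h5 : v 0 ^ 2 ≤ v 1 * v 4 := by nlinarith [mul_nonneg e3 e2]
      have h6 : 4 * (v 1 * v 4) ≤ (v 1 + v 4) ^ 2 := by nlinarith [sq_nonneg (v 1 - v 4)]
      have h7 : (v 1 + v 4) ^ 2 ≤ v 0 ^ 2 := by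
        apply pow_le_pow_left₀ (add_nonneg e1 e4) h4
      have h8 : v 0 ^ 2 ≤ 0 := by nlinarith
      have h9 : v 0 = 0 := by nlinarith
      apply hv
      rw [← heq, h9] at hh
      funext i
      fin_cases i <;> simp only [Fin.zero_eta, Fin.mk_one, Fin.reduceFinMk, Pi.zero_apply] <;>
        linarith
    rcases lt_or_gt_of_ne hne with hlt | hgt
    · right
      refine (mul_rep_pos hv _ _).mpr ?_
      rw [h1, mul_one, LinearMap.sub_apply, coord_apply, coord_apply]
      linarith
    · left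
      refine (mul_rep_pos hv _ _).mpr ?_
      rw [h1, mul_one, LinearMap.sub_apply, coord_apply, coord_apply]
      linarith
  · -- the point e12
    have hv : (![1, 0, 0, 0, 0, 0] : V) ≠ 0 := fun h0 => by
      have := congrFun h0 0; simp at this
    refine ⟨Projectivization.mk ℝ _ hv, ⟨(mk_mem_Pent hv).mpr ?_, (mk_mem_Gr hv).mpr ?_⟩, ?_⟩
    · have : ∀ a, 0 ≤ forms hA a ![1, 0, 0, 0, 0, 0] := by
        rintro (a | a)
        · rw [forms_inl]; fin_cases a <;> simp
        · rw [forms_inr, hA_apply]; simp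
      exact fun a b => mul_nonneg (this a) (this b)
    · simp [plu]
    · refine (mul_rep_pos hv _ _).mpr ?_
      rw [lam0_apply, Fin.sum_univ_six, LinearMap.sub_apply, coord_apply, coord_apply]
      simp
  · have hv : (![0, 0, 0, 0, 0, 1] : V) ≠ 0 := fun h0 => by
      have := congrFun h0 5; simp at this
    refine ⟨Projectivization.mk ℝ _ hv, ⟨(mk_mem_Pent hv).mpr ?_, (mk_mem_Gr hv).mpr ?_⟩, ?_⟩
    · have : ∀ a, 0 ≤ forms hA a ![0, 0, 0, 0, 0, 1] := by
        rintro (a | a)
        · rw [forms_inl]; fin_cases a <;> simp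
        · rw [forms_inr, hA_apply]; simp
      exact fun a b => mul_nonneg (this a) (this b)
    · simp [plu]
    · refine (mul_rep_pos hv _ _).mpr ?_
      rw [lam0_apply, Fin.sum_univ_six, LinearMap.sub_apply, coord_apply, coord_apply]
      simp

/-- There is a positive pentahedron (a positive polytope with `m = 1`) in `Gr(2,4)` that is
disconnected; in particular it is not contractible. -/
theorem result : ∃ S : Set P5, IsPositivePolytope 1 S ∧ ¬ IsPreconnected S ∧
    ¬ ContractibleSpace S := by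
  refine ⟨Pent hA ∩ Gr, good_hA.isPositivePolytope, notPreconnected, fun hc => ?_⟩
  apply notPreconnected
  rw [isPreconnected_iff_preconnectedSpace]
  infer_instance

end Pool.Agent.Results.MP_7a7825_ag.Disconnected
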