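import Pool.Agent.MP_7a7825_ag.Examples

open LinearAlgebra.Projectivization unitInterval

namespace Pool.Agent.Results.MP_7a7825_ag.NotContractible

open Pool.Agent.MP_7a7825_ag

/-- the positive polytope of this file -/
def S : Set P5 := Pent hB ∩ Gr

/-- joining points of a subset of projective space by a path of vectors -/
lemma joinedIn_of_curve {T : Set P5} (z : ℝ → V) (hz : Continuous z)
    (hne : ∀ r ∈ Set.Icc (0 : ℝ) 1, z r ≠ 0)
    (hT : ∀ r (hr : r ∈ Set.Icc (0 : ℝ) 1), Projectivization.mk ℝ (z r) (hne r hr) ∈ T)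
    {x y : P5} (hx : Projectivization.mk ℝ (z 0) (hne 0 (by simp)) = x)
    (hy : Projectivization.mk ℝ (z 1) (hne 1 (by simp)) = y) : JoinedIn T x y := by
  refine ⟨⟨⟨fun r : I => proj ⟨z r, hne r r.2⟩, ?_⟩, hx, hy⟩, fun r => hT r r.2⟩
  apply continuous_proj.comp
  exact Continuous.subtype_mk (hz.comp continuous_subtype_val) _

lemma mk_mem_S {v : V} (hv : v ≠ 0) (hp : plu v = 0) (hnn : ∀ i, 0 ≤ v i) (hh : 0 ≤ hB v) :
    Projectivization.mk ℝ v hv ∈ S := by
  refine ⟨(mk_mem_Pent hv).mpr ?_, (mk_mem_Gr hv).mpr hp⟩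
  have : ∀ a, 0 ≤ forms hB a v := by
    rintro (a | a)
    · exact hnn a
    · exact hh
  exact fun a b => mul_nonneg (this a) (this b)

lemma exists_rep_S {x : P5} (hx : x ∈ S) : ∃ (v : V) (hv : v ≠ 0),
    Projectivization.mk ℝ v hv = x ∧ lam0 v = 1 ∧ plu v = 0 ∧ (∀ i, 0 ≤ v i) ∧ 0 ≤ hB v := by
  obtain ⟨hP, hG⟩ := hx
  have hP' : ∀ i j : Fin 6, 0 ≤ x.rep i * x.rep j := fun i j => hP (Sum.inl i) (Sum.inl j)
  obtain ⟨v, hv, rfl, h1, hnn⟩ := exists_normalized hP'
  rw [mk_mem_Gr] at hG
  rw [mk_mem_Pent] at hP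
  have hnn' := forms_nonneg (by rw [h1]; norm_num) hP
  exact ⟨v, hv, rfl, h1, hG, hnn, hnn' (Sum.inr 0)⟩

lemma e0_ne : (![1, 0, 0, 0, 0, 0] : V) ≠ 0 := fun h0 => by
  have := congrFun h0 0; simp at this

/-- the base point `e12` -/
noncomputable def base : P5 := Projectivization.mk ℝ ![1, 0, 0, 0, 0, 0] e0_ne

lemma base_mem : base ∈ S := by
  apply mk_mem_S
  · simp [plu]
  · intro i; fin_cases i <;> simp
  · rw [hB_apply]; simp

/-- points on the edge `[12, 14]` -/
lemma joined_edge1 (a b : ℝ) (ha : 0 ≤ a) (hb : 0 ≤ b) (hab : 0 < a + b)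
    (hv : (![a, 0, 0, b, 0, 0] : V) ≠ 0) :
    JoinedIn S (Projectivization.mk ℝ ![a, 0, 0, b, 0, 0] hv) base := by
  refine joinedIn_of_curve (fun r => ![(1 - r) * a + r, 0, 0, (1 - r) * b, 0, 0]) ?_ ?_ ?_ ?_ ?_
  · apply continuous_pi
    intro i
    fin_cases i <;> simp <;> fun_prop
  · rintro r ⟨h0, h1⟩ hz
    have e1 := congrFun hz 0
    have e2 := congrFun hz 3
    simp at e1 e2
    rcases e2 with e2 | e2
    · have : r = 1 := by linarith
      rw [this] at e1; simp at e1
    · have ha' : 0 < a := by linarith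
      have h3 : 0 ≤ (1 - r) * a := mul_nonneg (by linarith) ha
      have hr0 : r = 0 := by linarith
      rw [hr0] at e1
      linarith
  · rintro r ⟨h0, h1⟩
    have p1 : 0 ≤ (1 - r) * a := mul_nonneg (by linarith) ha
    have p2 : 0 ≤ (1 - r) * b := mul_nonneg (by linarith) hb
    apply mk_mem_S
    · simp [plu]
    · intro i; fin_cases i <;> simp <;> linarith
    · rw [hB_apply]; simp; linarith
  · congr 1; funext i; fin_cases i <;> simp
  · unfold base; congr 1; funext i; fin_cases i <;> simp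

lemma e2_ne : (![0, 0, 1, 0, 0, 0] : V) ≠ 0 := fun h0 => by
  have := congrFun h0 2; simp at this

lemma joined_e2 : JoinedIn S (Projectivization.mk ℝ ![0, 0, 1, 0, 0, 0] e2_ne) base := by
  refine joinedIn_of_curve (fun r => ![r, 0, 1 - r, 0, 0, 0]) ?_ ?_ ?_ ?_ ?_
  · apply continuous_pi
    intro i
    fin_cases i <;> simp <;> fun_prop
  · rintro r ⟨h0, h1⟩ hz
    have e1 := congrFun hz 0
    have e2 := congrFun hz 2
    simp at e1 e2
    linarith
  · rintro r ⟨h0, h1⟩
    apply mk_mem_S
    · simp [plu]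
    · intro i; fin_cases i <;> simp <;> linarith
    · rw [hB_apply]; simp
  · congr 1; funext i; fin_cases i <;> simp
  · unfold base; congr 1; funext i; fin_cases i <;> simp

/-- points on the edge `[23, 34]` -/
lemma joined_edge2 (a b : ℝ) (ha : 0 ≤ a) (hb : 0 ≤ b) (hab : 0 < a + b)
    (hv : (![0, 0, a, 0, 0, b] : V) ≠ 0) :
    JoinedIn S (Projectivization.mk ℝ ![0, 0, a, 0, 0, b] hv) base := by
  refine JoinedIn.trans ?_ joined_e2
  refine joinedIn_of_curve (fun r => ![0, 0, (1 - r) * a + r, 0, 0, (1 - r) * b]) ?_ ?_ ?_ ?_ ?_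
  · apply continuous_pi
    intro i
    fin_cases i <;> simp <;> fun_prop
  · rintro r ⟨h0, h1⟩ hz
    have e1 := congrFun hz 2
    have e2 := congrFun hz 5
    simp at e1 e2
    rcases e2 with e2 | e2
    · have : r = 1 := by linarith
      rw [this] at e1; simp at e1
    · have ha' : 0 < a := by linarith
      have h3 : 0 ≤ (1 - r) * a := mul_nonneg (by linarith) ha
      have hr0 : r = 0 := by linarith
      rw [hr0] at e1
      linarith
  · rintro r ⟨h0, h1⟩
    have p1 : 0 ≤ (1 - r) * a := mul_nonneg (by linarith) ha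
    have p2 : 0 ≤ (1 - r) * b := mul_nonneg (by linarith) hb
    apply mk_mem_S
    · simp [plu]
    · intro i; fin_cases i <;> simp <;> linarith
    · rw [hB_apply]; simp; linarith
  · congr 1; funext i; fin_cases i <;> simp
  · congr 1; funext i; fin_cases i <;> simp

lemma joined_base {x : P5} (hx : x ∈ S) : JoinedIn S base x := by
  apply JoinedIn.symm
  obtain ⟨v, hv, rfl, h1, hp, hnn, hh⟩ := exists_rep_S hx
  have hp' : v 0 * v 5 - v 1 * v 4 + v 3 * v 2 = 0 := hp
  rw [hB_apply] at hh
  have e0 := hnn 0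
  have e1 := hnn 1
  have e2 := hnn 2
  have e3 := hnn 3
  have e4 := hnn 4
  have e5 := hnn 5
  have hsum : 0 < v 0 + v 3 + (v 2 + v 5) := by
    by_contra hcon
    push Not at hcon
    apply hv
    funext i
    fin_cases i <;> simp only [Fin.zero_eta, Fin.mk_one, Fin.reduceFinMk, Pi.zero_apply] <;>
      linarith
  rcases le_total (v 2 + v 5) (v 0 + v 3) with hle | hle
  · have hpos : 0 < v 0 + v 3 := by linarith
    have hne : (![v 0, 0, 0, v 3, 0, 0] : V) ≠ 0 := fun hz => by
      have a1 := congrFun hz 0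
      have a2 := congrFun hz 3
      simp at a1 a2
      linarith
    refine JoinedIn.trans ?_ (joined_edge1 (v 0) (v 3) e0 e3 hpos hne)
    refine joinedIn_of_curve (fun r => ![v 0, (1 - r) * v 1, (1 - r) ^ 2 * v 2, v 3,
      (1 - r) * v 4, (1 - r) ^ 2 * v 5]) ?_ ?_ ?_ ?_ ?_
    · apply continuous_pi
      intro i
      fin_cases i <;> simp <;> fun_prop
    · rintro r ⟨h0, h1⟩ hz
      have a1 := congrFun hz 0
      have a2 := congrFun hz 3
      simp at a1 a2
      linarith
    · rintro r ⟨h0, h1⟩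
      apply mk_mem_S
      · simp [plu]
        linear_combination (1 - r) ^ 2 * hp'
      · intro i
        have hr : 0 ≤ 1 - r := by linarith
        fin_cases i <;> simp <;> positivity
      · rw [hB_apply]
        simp
        have hr : 0 ≤ 1 - r := by linarith
        nlinarith [mul_nonneg hr hh, mul_nonneg h0 (sub_nonneg.mpr hle),
          mul_nonneg (mul_nonneg h0 h0) (add_nonneg e2 e5)]
    · congr 1; funext i; fin_cases i <;> simp
    · congr 1; funext i; fin_cases i <;> simp
  · have hpos : 0 < v 2 + v 5 := by linarith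
    have hne : (![0, 0, v 2, 0, 0, v 5] : V) ≠ 0 := fun hz => by
      have a1 := congrFun hz 2
      have a2 := congrFun hz 5
      simp at a1 a2
      linarith
    refine JoinedIn.trans ?_ (joined_edge2 (v 2) (v 5) e2 e5 hpos hne)
    refine joinedIn_of_curve (fun r => ![(1 - r) ^ 2 * v 0, (1 - r) * v 1, v 2,
      (1 - r) ^ 2 * v 3, (1 - r) * v 4, v 5]) ?_ ?_ ?_ ?_ ?_
    · apply continuous_pi
      intro i
      fin_cases i <;> simp <;> fun_prop
    · rintro r ⟨h0, h1⟩ hz
      have a1 := congrFun hz 2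
      have a2 := congrFun hz 5
      simp at a1 a2
      linarith
    · rintro r ⟨h0, h1⟩
      apply mk_mem_S
      · simp [plu]
        linear_combination (1 - r) ^ 2 * hp'
      · intro i
        have hr : 0 ≤ 1 - r := by linarith
        fin_cases i <;> simp <;> positivity
      · rw [hB_apply]
        simp
        have hr : 0 ≤ 1 - r := by linarith
        nlinarith [mul_nonneg hr hh, mul_nonneg h0 (sub_nonneg.mpr hle),
          mul_nonneg (mul_nonneg h0 h0) (add_nonneg e0 e3)]
    · congr 1; funext i; fin_cases i <;> simp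
    · congr 1; funext i; fin_cases i <;> simp

lemma isPathConnected_S : IsPathConnected S := ⟨base, base_mem, fun _ hx => joined_base hx⟩

/-! ### a map to the punctured plane -/

/-- the map on vectors -/
noncomputable def F0 (v : V) : ℂ := ⟨v 0 - v 5, v 3 - v 2⟩

lemma F0_smul (c : ℝ) (v : V) : F0 (c • v) = c * F0 v := by
  apply Complex.ext <;> simp [F0] <;> ring

/-- the map on projective space -/
noncomputable def F1 (x : P5) : ℂ := F0 x.rep / (lam0 x.rep : ℂ)

lemma F1_mk {v : V} (hv : v ≠ 0) : F1 (Projectivization.mk ℝ v hv) = F0 v / (lam0 v : ℂ) := by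
  obtain ⟨c, hc, he⟩ := rep_mk v hv
  unfold F1
  rw [he, F0_smul, map_smul, smul_eq_mul]
  push_cast
  rw [mul_div_mul_left _ _ (by exact_mod_cast hc)]

lemma continuousOn_F1 : ContinuousOn F1 S := by
  -- continuity on the open chart `lam0 ≠ 0`
  have hopen : IsOpen {x : P5 | 0 < lam0 x.rep * lam0 x.rep} := isOpen_mul_pos _ _
  have hsub : S ⊆ {x : P5 | 0 < lam0 x.rep * lam0 x.rep} := by
    intro x hx
    obtain ⟨v, hv, rfl, h1, -⟩ := exists_rep_S hx
    refine (mul_rep_pos hv _ _).mpr ?_
    rw [h1]; norm_num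
  refine ContinuousOn.mono ?_ hsub
  rw [continuousOn_open_iff hopen]
  intro t ht
  rw [isOpen_iff_proj]
  have : proj ⁻¹' ({x : P5 | 0 < lam0 x.rep * lam0 x.rep} ∩ F1 ⁻¹' t) =
      {v : {v : V // v ≠ 0} | 0 < lam0 v.1 * lam0 v.1} ∩
        (fun v : {v : V // v ≠ 0} => F0 v.1 / (lam0 v.1 : ℂ)) ⁻¹' t := by
    ext ⟨v, hv⟩
    constructor
    · rintro ⟨h1, h2⟩
      refine ⟨(mul_rep_pos hv _ _).mp h1, ?_⟩
      have h2' : F1 (Projectivization.mk ℝ v hv) ∈ t := h2
      rw [F1_mk] at h2'
      exact h2'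
    · rintro ⟨h1, h2⟩
      refine ⟨(mul_rep_pos hv _ _).mpr h1, ?_⟩
      show F1 (Projectivization.mk ℝ v hv) ∈ t
      rw [F1_mk]
      exact h2
  rw [this]
  have hl := lam0.continuous_of_finiteDimensional
  have hopen' : IsOpen {v : {v : V // v ≠ 0} | 0 < lam0 v.1 * lam0 v.1} := by
    apply isOpen_lt continuous_const
    fun_prop
  apply ContinuousOn.isOpen_inter_preimage _ hopen' ht
  apply ContinuousOn.div
  · apply Continuous.continuousOn
    have : Continuous F0 := by
      have h1 : Continuous fun v : V => ((v 0 - v 5 : ℝ) : ℂ) + ((v 3 - v 2 : ℝ) : ℂ) * Complex.I := by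
        fun_prop
      convert h1 using 1
      funext v
      apply Complex.ext <;> simp [F0]
    exact this.comp continuous_subtype_val
  · apply Continuous.continuousOn
    exact Complex.continuous_ofReal.comp (hl.comp continuous_subtype_val)
  · rintro ⟨v, hv⟩ h1 h0
    have h1' : 0 < lam0 v * lam0 v := h1
    have h0' : lam0 v = 0 := by exact_mod_cast h0
    rw [h0'] at h1'
    simp at h1'

lemma F1_ne_zero {x : P5} (hx : x ∈ S) : F1 x ≠ 0 := by
  obtain ⟨v, hv, rfl, h1, hp, hnn, hh⟩ := exists_rep_S hx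
  rw [F1_mk, h1]
  simp only [Complex.ofReal_one, div_one]
  intro h0
  have a1 := congrArg Complex.re h0
  have a2 := congrArg Complex.im h0
  simp only [F0, Complex.zero_re, Complex.zero_im] at a1 a2
  have hp' : v 0 * v 5 - v 1 * v 4 + v 3 * v 2 = 0 := hp
  rw [hB_apply] at hh
  have e0 := hnn 0
  have e1 := hnn 1
  have e2 := hnn 2
  have e3 := hnn 3
  have e4 := hnn 4
  have e5 := hnn 5
  have b1 : v 5 = v 0 := by linarith
  have b2 : v 2 = v 3 := by linarith
  rw [b1, b2] at hp' hh
  have c1 : v 1 + v 4 ≤ v 0 + v 3 := by linarith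
  have c2 : (v 1 + v 4) ^ 2 ≤ (v 0 + v 3) ^ 2 := pow_le_pow_left₀ (add_nonneg e1 e4) c1 2
  have c3 : v 0 ^ 2 + v 3 ^ 2 ≤ 0 := by nlinarith [sq_nonneg (v 1 - v 4), sq_nonneg (v 0 - v 3)]
  have c4 : v 0 = 0 := by nlinarith
  have c5 : v 3 = 0 := by nlinarith
  apply hv
  rw [c4, c5] at hh
  funext i
  fin_cases i <;> simp only [Fin.zero_eta, Fin.mk_one, Fin.reduceFinMk, Pi.zero_apply] <;>
    linarith

/-- the resulting map to the punctured plane -/
noncomputable def F : C(S, {z : ℂ // z ≠ 0}) where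
  toFun x := ⟨F1 x.1, F1_ne_zero x.2⟩
  continuous_toFun := by
    apply Continuous.subtype_mk
    exact continuousOn_iff_continuous_domRestrict.mp continuousOn_F1

/-! ### the loop -/

/-- the loop on vectors -/
noncomputable def gvec (t : ℝ) : V :=
  ![max (Real.cos (2 * Real.pi * t)) 0, 0, max (-Real.sin (2 * Real.pi * t)) 0,
    max (Real.sin (2 * Real.pi * t)) 0, 0, max (-Real.cos (2 * Real.pi * t)) 0]

lemma max_sub (a : ℝ) : max a 0 - max (-a) 0 = a := by
  rcases le_total 0 a with h | h
  · rw [max_eq_left h, max_eq_right (by linarith)]; ring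
  · rw [max_eq_right h, max_eq_left (by linarith)]; ring

lemma max_mul (a : ℝ) : max a 0 * max (-a) 0 = 0 := by
  rcases le_total 0 a with h | h
  · rw [max_eq_right (show -a ≤ 0 by linarith)]; ring
  · rw [max_eq_right h]; ring

lemma F0_gvec (t : ℝ) : F0 (gvec t) = Complex.exp (2 * Real.pi * t * Complex.I) := by
  apply Complex.ext
  · rw [show (2 * Real.pi * t * Complex.I : ℂ) = ((2 * Real.pi * t : ℝ) : ℂ) * Complex.I by
      push_cast; ring, Complex.exp_ofReal_mul_I_re]
    simp [F0, gvec]
  · rw [show (2 * Real.pi * t * Complex.I : ℂ) = ((2 * Real.pi * t : ℝ) : ℂ) * Complex.I by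
      push_cast; ring, Complex.exp_ofReal_mul_I_im]
    simp [F0, gvec]

lemma gvec_ne (t : ℝ) : gvec t ≠ 0 := by
  intro h0
  have h1 := F0_gvec t
  rw [h0] at h1
  have : F0 0 = 0 := by apply Complex.ext <;> simp [F0]
  rw [this] at h1
  exact Complex.exp_ne_zero _ h1.symm

lemma gvec_nonneg (t : ℝ) (i : Fin 6) : 0 ≤ gvec t i := by
  fin_cases i <;> simp [gvec]

lemma gvec_mem (t : ℝ) : Projectivization.mk ℝ (gvec t) (gvec_ne t) ∈ S := by
  apply mk_mem_S
  · have h1 := max_mul (Real.cos (2 * Real.pi * t))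
    have h2 := max_mul (Real.sin (2 * Real.pi * t))
    have : plu (gvec t) = max (Real.cos (2 * Real.pi * t)) 0 * max (-Real.cos (2 * Real.pi * t)) 0 -
      0 * 0 + max (Real.sin (2 * Real.pi * t)) 0 * max (-Real.sin (2 * Real.pi * t)) 0 := rfl
    rw [this, h1, h2]
    ring
  · exact gvec_nonneg t
  · rw [hB_apply]
    have := gvec_nonneg t 0
    have := gvec_nonneg t 2
    have := gvec_nonneg t 3
    have := gvec_nonneg t 5
    have e1 : gvec t 1 = 0 := rfl
    have e4 : gvec t 4 = 0 := rfl
    rw [e1, e4]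
    linarith

lemma continuous_gvec : Continuous gvec := by
  apply continuous_pi
  intro i
  fin_cases i <;> simp [gvec] <;> fun_prop

lemma gvec_zero : gvec 0 = ![1, 0, 0, 0, 0, 0] := by
  funext i; fin_cases i <;> simp [gvec]

lemma gvec_one : gvec 1 = ![1, 0, 0, 0, 0, 0] := by
  funext i; fin_cases i <;> simp [gvec]

/-- the loop in `S` -/
noncomputable def loop : Path (⟨base, base_mem⟩ : S) ⟨base, base_mem⟩ where
  toFun t := ⟨Projectivization.mk ℝ (gvec t) (gvec_ne t), gvec_mem t⟩
  continuous_toFun := by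
    apply Continuous.subtype_mk
    exact continuous_proj.comp
      (Continuous.subtype_mk (continuous_gvec.comp continuous_subtype_val) (fun t => gvec_ne t))
  source' := by
    apply Subtype.ext
    show Projectivization.mk ℝ (gvec (0 : I)) _ = base
    unfold base
    congr 1
    exact gvec_zero
  target' := by
    apply Subtype.ext
    show Projectivization.mk ℝ (gvec (1 : I)) _ = base
    unfold base
    congr 1
    exact gvec_one

lemma lam_pos (t : ℝ) : 0 < lam0 (gvec t) := lam0_pos (gvec_ne t) (gvec_nonneg t)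

/-- the lift of the loop through the exponential -/
noncomputable def lift (t : ℝ) : ℂ :=
  2 * Real.pi * t * Complex.I - (Real.log (lam0 (gvec t)) : ℂ)

lemma continuous_lift : Continuous lift := by
  unfold lift
  have hl := lam0.continuous_of_finiteDimensional
  have h1 : Continuous fun t => Real.log (lam0 (gvec t)) := by
    apply Continuous.log
    · exact hl.comp continuous_gvec
    · intro t; exact (lam_pos t).ne'
  have h2 : Continuous fun t : ℝ => ((Real.log (lam0 (gvec t)) : ℝ) : ℂ) :=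
    Complex.continuous_ofReal.comp h1
  fun_prop

lemma exp_lift (t : ℝ) : Complex.exp (lift t) = F1 (Projectivization.mk ℝ (gvec t) (gvec_ne t)) := by
  rw [F1_mk, F0_gvec, lift, Complex.exp_sub, ← Complex.ofReal_exp, Real.exp_log (lam_pos t)]

lemma lam0_base : lam0 (![1, 0, 0, 0, 0, 0] : V) = 1 := by
  rw [lam0_apply, Fin.sum_univ_six]; simp

lemma notSimplyConnected : ¬ SimplyConnectedSpace S := by
  intro hsc
  have hhom : Path.Homotopic loop (Path.refl _) := SimplyConnectedSpace.paths_homotopic _ _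
  have hrel : ContinuousMap.HomotopicRel (F.comp loop.toContinuousMap)
      (F.comp (Path.refl (⟨base, base_mem⟩ : S)).toContinuousMap) {0, 1} :=
    ContinuousMap.HomotopicRel.comp_continuousMap hhom F
  have hlift0 : lift 0 = 0 := by
    rw [lift, gvec_zero, lam0_base]; simp
  have hlift1 : lift 1 = 2 * Real.pi * Complex.I := by
    rw [lift, gvec_one, lam0_base]; simp
  have hbase : F ⟨base, base_mem⟩ = ⟨Complex.exp 0, Complex.exp_ne_zero 0⟩ := by
    apply Subtype.ext
    show F1 base = Complex.exp 0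
    have := exp_lift 0
    rw [hlift0] at this
    rw [this]
    congr 1
    unfold base
    congr 1
    exact gvec_zero.symm
  have h0 : (F.comp loop.toContinuousMap) 0 = ⟨Complex.exp 0, Complex.exp_ne_zero 0⟩ := by
    rw [← hbase]
    show F (loop 0) = _
    rw [loop.source]
  have h1 : (F.comp (Path.refl (⟨base, base_mem⟩ : S)).toContinuousMap) 0 =
      ⟨Complex.exp 0, Complex.exp_ne_zero 0⟩ := by
    rw [← hbase]; rfl
  have key := Complex.isCoveringMap_exp.liftPath_apply_one_eq_of_homotopicRel hrel 0 h0 h1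
  -- the lift of the loop
  have e1 : (⟨fun t : I => lift t, continuous_lift.comp continuous_subtype_val⟩ : C(I, ℂ)) =
      Complex.isCoveringMap_exp.liftPath (F.comp loop.toContinuousMap) 0 h0 := by
    rw [Complex.isCoveringMap_exp.eq_liftPath_iff']
    refine ⟨?_, hlift0⟩
    funext t
    apply Subtype.ext
    exact exp_lift t
  have e2 : (⟨fun _ : I => (0 : ℂ), continuous_const⟩ : C(I, ℂ)) =
      Complex.isCoveringMap_exp.liftPath
        (F.comp (Path.refl (⟨base, base_mem⟩ : S)).toContinuousMap) 0 h1 := by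
    rw [Complex.isCoveringMap_exp.eq_liftPath_iff']
    refine ⟨?_, rfl⟩
    funext t
    exact h1.symm
  rw [← e1, ← e2] at key
  have key' : lift 1 = 0 := key
  rw [hlift1] at key'
  simp [Real.pi_ne_zero] at key'

/-- There is a positive pentahedron (a positive polytope with `m = 1`) in `Gr(2,4)` that is
path connected but not simply connected; in particular it is not contractible. -/
theorem result : ∃ S : Set P5, IsPositivePolytope 1 S ∧ IsPathConnected S ∧
    ¬ SimplyConnectedSpace S ∧ ¬ ContractibleSpace S :=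
  ⟨S, good_hB.isPositivePolytope, isPathConnected_S, notSimplyConnected,
    fun _ => notSimplyConnected inferInstance⟩

end Pool.Agent.Results.MP_7a7825_ag.NotContractible
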